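import Mathlib
import Pool.Agent.V11304.CT.Main

/-!
# MP_77f5f4_nt, Q1 (affirmative answer)

Both supercongruences for Catalan numbers times second-order Catalan numbers.
-/

namespace Pool.Agent.Results.MP_77f5f4_nt.Full

/-- The Catalan number `C_k = C(2k,k)/(k+1)`, as a rational number. -/
def cat (k : ℕ) : ℚ := (((2 * k).choose k : ℕ) : ℚ) / (k + 1)

/-- The second-order Catalan number of the first kind, `C(3k,k)/(2k+1)`. -/
def cat2 (k : ℕ) : ℚ := (((3 * k).choose k : ℕ) : ℚ) / (2 * k + 1)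

/-- The second-order Catalan number of the second kind, `2 C(3k,k)/(k+1)`. -/
def cat2' (k : ℕ) : ℚ := 2 * (((3 * k).choose k : ℕ) : ℚ) / (k + 1)

/-- The symbol `(p/3)` for `p` prime to `3`: `1` if `p ≡ 1 (mod 3)`, else `-1`. -/
def chi3 (p : ℕ) : ℤ := if p % 3 = 1 then 1 else -1

/-- For every prime `p > 3` both congruences hold; the congruence `x ≡ y (mod p^m)` for
rational numbers is written `x - y = p^m u / v` with integers `u, v`, `p ∤ v`. -/
theorem result : ∀ p : ℕ, p.Prime → 3 < p →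
    (∃ u v : ℤ, ¬ (p : ℤ) ∣ v ∧
      ∑ k ∈ Finset.range p, cat k * cat2 k / 27 ^ k - (2 * chi3 p - p) = (p : ℚ) ^ 2 * u / v) ∧
    (∃ u v : ℤ, ¬ (p : ℤ) ∣ v ∧
      ∑ k ∈ Finset.range p, cat k * cat2' k / 27 ^ k - (-7) = (p : ℚ) ^ 1 * u / v) := by
  intro p hp h3
  have : Fact p.Prime := ⟨hp⟩
  have key : ∀ (m : ℕ) (x : ℚ), Pool.Agent.V11304.PI.Dv p m x →
      ∃ u v : ℤ, ¬ (p : ℤ) ∣ v ∧ x = (p : ℚ) ^ m * u / v := by
    intro m x hx
    obtain ⟨y, ⟨r, a, b, hb, hy, _⟩, hx⟩ := hx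
    refine ⟨a, b, ?_, ?_⟩
    · intro h
      exact hb ((ZMod.intCast_zmod_eq_zero_iff_dvd _ _).mpr h)
    · rw [hx, hy, mul_div_assoc]
  have hp3 : p % 3 = 1 ∨ p % 3 = 2 := by
    have : p % 3 ≠ 0 := by
      intro h0
      have h4 := (Nat.prime_dvd_prime_iff_eq Nat.prime_three hp).mp (Nat.dvd_of_mod_eq_zero h0)
      omega
    omega
  refine ⟨key 2 _ ?_, key 1 _ ?_⟩
  · have h := Pool.Agent.V11304.CT.first h3 (chi3 p) (by
      unfold chi3
      rcases hp3 with h | h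
      · left; exact ⟨h, by rw [if_pos h]⟩
      · right; exact ⟨h, by rw [if_neg (by omega)]⟩)
    have e : ∑ k ∈ Finset.range p, cat k * cat2 k / 27 ^ k =
        ∑ k ∈ Finset.range p, Pool.Agent.V11304.CT.w (-1 / 3) k / (((k : ℚ) + 1) * (2 * k + 1)) := by
      refine Finset.sum_congr rfl fun k _ => ?_
      rw [Pool.Agent.V11304.CT.w_third]
      unfold cat cat2
      have h1 : (k : ℚ) + 1 ≠ 0 := by positivity
      have h2 : 2 * (k : ℚ) + 1 ≠ 0 := by positivity
      field_simp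
    rw [e]
    exact h
  · have h := Pool.Agent.V11304.CT.second h3
    have e : ∑ k ∈ Finset.range p, cat k * cat2' k / 27 ^ k =
        ∑ k ∈ Finset.range p, 2 * Pool.Agent.V11304.CT.w (-1 / 3) k / ((k : ℚ) + 1) ^ 2 := by
      refine Finset.sum_congr rfl fun k _ => ?_
      rw [Pool.Agent.V11304.CT.w_third]
      unfold cat cat2'
      have h1 : (k : ℚ) + 1 ≠ 0 := by positivity
      field_simp
    rw [e, sub_neg_eq_add]
    exact h

end Pool.Agent.Results.MP_77f5f4_nt.Full
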